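import Pool.Agent.H561.PG.Q4

set_option autoImplicit false

/-! Primes `|n ^ 2 + a|` with `n` a prime that is small relative to `a`, for almost every `a`. -/

namespace Pool.Agent.Results.MP_391708_nt.PrimeArgumentsAlmostAll

open Finset

/-- the partial products of `∏ (1 - ρ(p) / (p - 1)) / (1 - 1 / p)`, `ρ(p)` the number of the classes `x ≠ 0` modulo `p` with
`x ^ 2 + a = 0`, for `a` even (the factor at `2` is `2`) -/
noncomputable def partialS (a : ℤ) (z : ℕ) : ℝ :=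
  2 * ∏ p ∈ (Icc 3 z).filter Nat.Prime,
    if (p : ℤ) ∣ a then (p : ℝ) / (p - 1) else p * (p - 2 - (jacobiSym (-a) p : ℝ)) / (p - 1) ^ 2

/-- the number of the primes `n` of `(u, v]` for which `|n ^ 2 + a|` is prime -/
noncomputable def count (a : ℤ) (u v : ℝ) : ℕ :=
  ((Ioc ⌊u⌋₊ ⌊v⌋₊).filter (fun n : ℕ => n.Prime ∧ ((n : ℤ) ^ 2 + a).natAbs.Prime)).card

/-- the full product `S(a)` converges and is positive, and the number of the primes `n` of `(u, v]` for which `|n ^ 2 + a|`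
is prime is `S(a) (v - u) / (log v log |a|)` up to a relative error `ε`, for all windows `(u, v]` with
`|a| ^ (1 / 8 + δ) ≤ v`, `v ^ 2 (log |a|) ^ B ≤ |a|`, `v - u ≥ v / (log |a|) ^ W` -/
def Holds (δ ε : ℝ) (W B : ℕ) (a : ℤ) : Prop :=
  ∃ S : ℝ, 0 < S ∧ Filter.Tendsto (partialS a) Filter.atTop (nhds S) ∧
    ∀ u v : ℝ, 0 ≤ u → (a.natAbs : ℝ) ^ (1 / 8 + δ) ≤ v → v ^ 2 * Real.log a.natAbs ^ B ≤ a.natAbs →
      v / Real.log a.natAbs ^ W ≤ v - u →
      |(count a u v : ℝ) - S * (v - u) / (Real.log v * Real.log a.natAbs)| ≤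
        ε * (S * (v - u) / (Real.log v * Real.log a.natAbs))

open Classical in
/-- for all but `O(X / (log X) ^ A)` of the even `a` with `|a| ≤ X` and `a ≢ 2` modulo `3` the formula holds -/
theorem result (W A : ℕ) (δ ε : ℝ) (hδ : 0 < δ) (hε : 0 < ε) :
    ∃ B X₀ : ℕ, ∀ X : ℕ, X₀ ≤ X →
    (((Icc (-(X : ℤ)) X).filter (fun a : ℤ => a ≠ 0 ∧ Even a ∧ a % 3 ≠ 2 ∧ ¬ Holds δ ε W B a)).card : ℝ) ≤
      X / Real.log X ^ A := by
  obtain ⟨D, X0, h⟩ := Pool.Agent.H561.PG.quad_all true 1 0 one_pos W A δ ε hδ hε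
  refine ⟨D, X0, fun X hX => ?_⟩
  refine le_trans ?_ (h X hX)
  have hsub : (Icc (-(X : ℤ)) X).filter (fun a : ℤ => a ≠ 0 ∧ Even a ∧ a % 3 ≠ 2 ∧ ¬ Holds δ ε W D a) ⊆
      (Icc (-(X : ℤ)) X).filter (fun c : ℤ => c ≠ 0 ∧ Pool.Agent.H561.PG.LS true 1 0 c ∧
        ¬ Pool.Agent.H561.PG.HoldC true 1 0 δ ε W D c) := by
    intro a ha
    rw [mem_filter] at ha ⊢
    obtain ⟨h1, h0, h2, h3, hn⟩ := ha
    refine ⟨h1, h0, Pool.Agent.H561.PG.LS_one a h2 h3, ?_⟩
    rintro ⟨S, g1, g2, g3⟩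
    apply hn
    refine ⟨S, g1, ?_, ?_⟩
    · refine g2.congr' ?_
      filter_upwards [Filter.eventually_ge_atTop 2] with z hz
      rw [Pool.Agent.H561.PG.St_prod]
      unfold partialS
      have e1 : Pool.Agent.H373R2.T7.pz z = insert 2 ((Icc 3 z).filter Nat.Prime) := by
        ext p
        rw [Pool.Agent.H373R2.T7.mem_pz, mem_insert, mem_filter, mem_Icc]
        constructor
        · rintro ⟨h4, h5⟩
          have := h5.two_le
          by_cases h6 : p = 2
          · exact Or.inl h6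
          · exact Or.inr ⟨⟨by omega, h4⟩, h5⟩
        · rintro (h4 | ⟨⟨_, h5⟩, h6⟩)
          · rw [h4]
            exact ⟨hz, Nat.prime_two⟩
          · exact ⟨h5, h6⟩
      have hnot : 2 ∉ (Icc 3 z).filter Nat.Prime := by
        rw [mem_filter, mem_Icc]
        omega
      rw [e1, prod_insert hnot]
      have e2 : (1 - Pool.Agent.H561.PG.loc true (Pool.Agent.R460.SB.QS (-1) (-0) a) 2) / (1 - 1 / ((2 : ℕ) : ℝ)) = 2 := by
        unfold Pool.Agent.H561.PG.loc
        rw [Pool.Agent.H561.PG.rho_two a h2]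
        norm_num
      rw [e2]
      congr 1
      apply prod_congr rfl
      intro p hp
      rw [mem_filter, mem_Icc] at hp
      exact Pool.Agent.H561.PG.fac_one a p hp.2 hp.1.1
    · intro u v hu hv hvD hvu
      have g5 := g3 u v hu hv hvD hvu
      have e1 : Pool.Agent.H561.PG.lb true v = Real.log v := by simp [Pool.Agent.H561.PG.lb]
      have e2 : Pool.Agent.H561.PG.cntq true 1 0 a u v = count a u v := by
        unfold Pool.Agent.H561.PG.cntq count
        simp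
      rw [e1, e2] at g5
      exact g5
  exact_mod_cast card_le_card hsub

end Pool.Agent.Results.MP_391708_nt.PrimeArgumentsAlmostAll
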